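import Pool.Agent.H95.GY.Targets

/-! HW: lower bound of the exponential near zero. -/

set_option autoImplicit false

open Filter Topology MeasureTheory Set
open scoped Pointwise

universe u v

namespace Pool.Agent.H31.GY

open Pool.Agent.H95.GY

theorem pf_HW (hHB : T_HB.{u}) : T_HW.{u} := by
  intro Q _ _ _ _ ν φ r C hGD
  have hr := hGD.r_pos
  have hC : 0 < C := lt_of_lt_of_le one_pos hGD.C_pos
  refine ⟨r / C, by positivity, C ^ 2, by positivity, ?_⟩
  intro X D hX hD x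
  have hB := hHB Q ν φ r C hGD X D (r / C) hX hD
  obtain ⟨hO, c, hc, t₀, ht₀, hX2⟩ := hX
  refine le_of_forall_pos_le_add fun η hη => ?_
  obtain ⟨n, hn⟩ := exists_nat_gt (max (1 / t₀) (c / η))
  have hn1 : 1 / t₀ < n := (le_max_left _ _).trans_lt hn
  have hn2 : c / η < n := (le_max_right _ _).trans_lt hn
  have hnpos : (0 : ℝ) < n := lt_trans (by positivity) hn1
  have hn0 : n ≠ 0 := by
    intro h
    rw [h] at hnpos
    simp at hnpos
  have ht : |(1 : ℝ) / n| ≤ t₀ := by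
    rw [abs_of_nonneg (by positivity)]
    rw [div_le_iff₀ hnpos]
    rw [div_lt_iff₀ ht₀] at hn1
    linarith
  have hcn : c / n ≤ η := by
    rw [div_le_iff₀ hnpos]
    rw [div_lt_iff₀ hη] at hn2
    linarith
  have h1 : n * ν (X (1 / n)) ≤ r := by
    have h2 := hB (1 / n)
    rw [abs_of_nonneg (by positivity : (0 : ℝ) ≤ 1 / n)] at h2
    calc (n : ℝ) * ν (X (1 / n)) ≤ n * (C * (r / C) * (1 / n)) :=
          mul_le_mul_of_nonneg_left h2 hnpos.le
      _ = r := by field_simp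
  have h3 : n * ν (X (1 / n)) ≤ C * ν (X 1) := by
    have h4 := hGD.esc (X (1 / n)) n h1
    rwa [hO.div hn0] at h4
  have h5 := hX2 (1 / n) x ht
  have h6 := hGD.lip (X (1 / n)) x
  have h7 : |1 / (n : ℝ) * D x| ≤ C * ν (X (1 / n)) + c * (1 / n) ^ 2 := by
    have e : 1 / (n : ℝ) * D x = (φ (X (1 / n) * x) - φ x) -
        (φ (X (1 / n) * x) - φ x - 1 / n * D x) := by ring
    rw [e]
    exact (abs_sub _ _).trans (add_le_add h6 h5)
  rw [abs_mul, abs_of_nonneg (by positivity : (0 : ℝ) ≤ 1 / n)] at h7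
  have h8 : |D x| ≤ n * (C * ν (X (1 / n)) + c * (1 / n) ^ 2) := by
    calc |D x| = n * (1 / n * |D x|) := by field_simp
      _ ≤ _ := mul_le_mul_of_nonneg_left h7 hnpos.le
  calc |D x| ≤ n * (C * ν (X (1 / n)) + c * (1 / n) ^ 2) := h8
    _ = C * (n * ν (X (1 / n))) + c / n := by field_simp
    _ ≤ C * (C * ν (X 1)) + η := add_le_add (mul_le_mul_of_nonneg_left h3 hC.le) hcn
    _ = C ^ 2 * ν (X 1) + η := by ring

end Pool.Agent.H31.GY
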