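import Pool.Agent.H95.GY.Targets

/-! N1: small powers in groups without small subgroups. -/

set_option autoImplicit false

open Filter Topology MeasureTheory Set
open scoped Pointwise

universe u v

namespace Pool.Agent.H31.GY

open Pool.Agent.H95.GY

theorem pf_N1 : T_N1.{u} := by
  intro Q _ _ _ _ U hU V hV
  by_contra hcon
  push Not at hcon
  have hex : ∀ m : ℕ, ∃ (g : Q) (n i : ℕ), (∀ i ≤ n, g ^ i ∈ U) ∧
      (i : ℝ) ≤ 1 / ((m : ℝ) + 1) * n ∧ g ^ i ∉ V := by
    intro m
    obtain ⟨g, n, h1, i, h2, h3⟩ := hcon (1 / ((m : ℝ) + 1)) (by positivity)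
    exact ⟨g, n, i, h1, h2, h3⟩
  choose g n i hg hi hV2 using hex
  have him : ∀ m, (m + 1) * i m ≤ n m := by
    intro m
    have h1 := hi m
    have h2 : (0 : ℝ) < (m : ℝ) + 1 := by positivity
    have h3 : ((m : ℝ) + 1) * i m ≤ n m := by
      calc ((m : ℝ) + 1) * i m ≤ ((m : ℝ) + 1) * (1 / ((m : ℝ) + 1) * n m) :=
            mul_le_mul_of_nonneg_left h1 h2.le
        _ = n m := by field_simp
    exact_mod_cast h3
  set ω : Ultrafilter ℕ := hyperfilter ℕ with hω
  have hωt : (ω : Filter ℕ) ≤ atTop := Nat.hyperfilter_le_atTop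
  let H : Subgroup Q :=
    { carrier := {x | ∃ (c : ℕ → ℤ) (C : ℕ), (∀ m, (c m).natAbs ≤ C * i m) ∧
        Tendsto (fun m => g m ^ c m) ω (𝓝 x)}
      mul_mem' := by
        rintro x y ⟨c, C, h1, h2⟩ ⟨c', C', h1', h2'⟩
        refine ⟨fun m => c m + c' m, C + C', fun m => ?_, ?_⟩
        · rw [add_mul]
          exact (Int.natAbs_add_le _ _).trans (add_le_add (h1 m) (h1' m))
        · have h3 := h2.mul h2'
          refine h3.congr fun m => ?_
          rw [zpow_add]
      one_mem' := by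
        refine ⟨fun _ => 0, 0, fun m => by simp, ?_⟩
        simp only [zpow_zero]
        exact tendsto_const_nhds
      inv_mem' := by
        rintro x ⟨c, C, h1, h2⟩
        refine ⟨fun m => - c m, C, fun m => by rw [Int.natAbs_neg]; exact h1 m, ?_⟩
        have h3 := h2.inv
        refine h3.congr fun m => ?_
        rw [zpow_neg] }
  have hHU : (H : Set Q) ⊆ U := by
    rintro x ⟨c, C, h1, h2⟩
    refine hU.compact.isClosed.mem_of_tendsto h2 ?_
    have h3 : ∀ᶠ m in (ω : Filter ℕ), C ≤ m := hωt (eventually_ge_atTop C)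
    filter_upwards [h3] with m hm
    have h4 : (c m).natAbs ≤ n m := by
      refine (h1 m).trans ((Nat.mul_le_mul_right _ ?_).trans (him m))
      omega
    have h5 := hg m _ h4
    rcases Int.natAbs_eq (c m) with h6 | h6
    · rw [h6, zpow_natCast]
      exact h5
    · rw [h6, zpow_neg, zpow_natCast]
      exact hU.symm _ h5
  have hHb := hU.nss H hHU
  have hiU : ∀ m, g m ^ i m ∈ U := by
    intro m
    refine hg m _ ?_
    have h1 := him m
    nlinarith
  obtain ⟨x, -, hx⟩ := hU.compact.ultrafilter_le_nhds' (ω.map fun m => g m ^ i m) (by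
    rw [Ultrafilter.mem_map]
    exact Filter.univ_mem' hiU)
  have hx2 : Tendsto (fun m => g m ^ i m) ω (𝓝 x) := hx
  have hxH : x ∈ H := by
    refine ⟨fun m => (i m : ℤ), 1, fun m => by simp, ?_⟩
    refine hx2.congr fun m => ?_
    rw [zpow_natCast]
  rw [hHb, Subgroup.mem_bot] at hxH
  rw [hxH] at hx2
  have h7 : ∀ᶠ m in (ω : Filter ℕ), g m ^ i m ∈ V := hx2 hV
  obtain ⟨m, hm⟩ := h7.exists
  exact hV2 m hm

end Pool.Agent.H31.GY
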